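import Pool.Agent.H93.AHD.Mn

/-!
MP_435603_co, partial answer to both questions: a good characterization of the 2-edge-coloured
complete multipartite graphs with an alternating Hamiltonian cycle in the class where one of the
colour graphs is disconnected and each of its components is either not too large, or large but met
only by parts that have at most as many vertices as there are vertices outside the component.

`R` and `B` are the red and the blue graph; they are edge-disjoint and their union is complete
multipartite (Mathlib: non-adjacency is transitive). The part of a vertex `v` is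
`{w | ¬ (R ⊔ B).Adj v w}`.
-/

namespace Pool.Agent.Results.MP_435603_co.PartComponentCriterion

open Pool.Agent.H35.AHC

universe u

/-- Let every component `K` of the red graph (or every component `K` of the blue graph) of a
2-edge-coloured complete multipartite graph on `n` vertices satisfy `3 |K| < 2 n + 4`, or
`|P| + |K| ≤ n` for every part `P` that meets `K`. Then an alternating Hamiltonian cycle
exists if and only if both colour graphs have perfect matchings; equivalently, the absence of one
is certified by a Tutte violator of one of the colour graphs. -/
theorem result (V : Type u) [Fintype V] [Nonempty V] (R B : SimpleGraph V)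
    (hdis : ∀ u v, R.Adj u v → ¬ B.Adj u v) (hcm : (R ⊔ B).IsCompleteMultipartite)
    (hs : (∀ K : R.ConnectedComponent, 3 * K.supp.ncard < 2 * Fintype.card V + 4 ∨
        ∀ v ∈ K.supp, ({w | ¬ (R ⊔ B).Adj v w} : Set V).ncard + K.supp.ncard ≤
          Fintype.card V) ∨
      (∀ K : B.ConnectedComponent, 3 * K.supp.ncard < 2 * Fintype.card V + 4 ∨
        ∀ v ∈ K.supp, ({w | ¬ (R ⊔ B).Adj v w} : Set V).ncard + K.supp.ncard ≤
          Fintype.card V)) :
    (HasAHC R B ↔
      (∃ M : R.Subgraph, M.IsPerfectMatching) ∧ (∃ M : B.Subgraph, M.IsPerfectMatching)) ∧
    (¬ HasAHC R B ↔ ∃ S : Set V, R.IsTutteViolator S ∨ B.IsTutteViolator S) := by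
  rw [← Nat.card_eq_fintype_card] at hs
  have key := Pool.Agent.H93.AHD.mainD_iff hdis hcm hs
  refine ⟨key, ?_⟩
  rw [key, SimpleGraph.tutte, SimpleGraph.tutte]
  constructor
  · intro h
    by_contra hcon
    push Not at hcon
    exact h ⟨fun S => (hcon S).1, fun S => (hcon S).2⟩
  · rintro ⟨S, hS | hS⟩ ⟨h1, h2⟩
    · exact h1 S hS
    · exact h2 S hS

end Pool.Agent.Results.MP_435603_co.PartComponentCriterion
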