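import Pool.Agent.H35.AHC.Closed

/-!
MP_435603_co, partial: the bound `(2 n + 4) / 3` on the component sizes of one colour, below which
perfect matchings in both colours suffice for an alternating Hamiltonian cycle, is best possible for
every `n ≡ 4 mod 6`, `n ≥ 10`.
-/

namespace Pool.Agent.Results.MP_435603_co.ThresholdSharp

open Pool.Agent.H35.AHC

/-- The vertex set: four special vertices and three classes of `2 k` vertices. -/
abbrev W (k : ℕ) : Type := Fin 4 ⊕ (Fin 3 × (Fin k × Bool))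

/-- The type of a vertex: `0..3` for the special vertices, `4, 5, 6` for the classes. -/
def ty (k : ℕ) : W k → Fin 7
  | Sum.inl i => ⟨i.val, by omega⟩
  | Sum.inr (a, _) => ⟨4 + a.val, by omega⟩

/-- The colour table: `0` none, `1` red, `2` blue. -/
def tab : Fin 7 → Fin 7 → Fin 3 :=
  ![![0, 1, 1, 2, 1, 1, 2],
    ![1, 0, 2, 0, 0, 2, 2],
    ![1, 2, 0, 1, 1, 1, 2],
    ![2, 0, 1, 0, 0, 2, 2],
    ![1, 0, 1, 0, 0, 1, 2],
    ![1, 2, 1, 2, 1, 2, 2],
    ![2, 2, 2, 2, 2, 2, 1]]

theorem tab_symm : ∀ a b, tab a b = tab b a := by decide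

theorem tab_trans : ∀ a b c, tab a b = 0 → tab b c = 0 → tab a c = 0 := by decide

/-- The graph of colour `c`. -/
def gr (k : ℕ) (c : Fin 3) : SimpleGraph (W k) where
  Adj u v := u ≠ v ∧ tab (ty k u) (ty k v) = c
  symm := ⟨fun _ _ h => ⟨h.1.symm, by rw [tab_symm]; exact h.2⟩⟩
  loopless := ⟨fun _ h => h.1 rfl⟩

/-- The red perfect matching. -/
def rm (k : ℕ) : W k → W k
  | Sum.inl i => Sum.inl (![1, 0, 3, 2] i)
  | Sum.inr (a, (i, s)) => Sum.inr (![1, 0, 2] a, (i, if a = 2 then !s else s))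

/-- The blue perfect matching. -/
def bm (k : ℕ) : W k → W k
  | Sum.inl i => Sum.inl (![3, 2, 1, 0] i)
  | Sum.inr (a, (i, s)) => Sum.inr (![2, 1, 0] a, (i, if a = 1 then !s else s))

theorem rm_pm (k : ℕ) : IsPM (gr k 1) (rm k) := by
  constructor
  · rintro (i | ⟨a, i, s⟩)
    · fin_cases i
      · exact ⟨by simp [rm], by show tab 0 1 = 1; decide⟩
      · exact ⟨by simp [rm], by show tab 1 0 = 1; decide⟩
      · exact ⟨by simp [rm], by show tab 2 3 = 1; decide⟩
      · exact ⟨by simp [rm], by show tab 3 2 = 1; decide⟩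
    · fin_cases a
      · exact ⟨by simp [rm], rfl⟩
      · exact ⟨by simp [rm], rfl⟩
      · exact ⟨by simp [rm], rfl⟩
  · rintro (i | ⟨a, i, s⟩)
    · fin_cases i <;> rfl
    · fin_cases a <;> simp [rm]

theorem bm_pm (k : ℕ) : IsPM (gr k 2) (bm k) := by
  constructor
  · rintro (i | ⟨a, i, s⟩)
    · fin_cases i
      · exact ⟨by simp [bm], by show tab 0 3 = 2; decide⟩
      · exact ⟨by simp [bm], by show tab 1 2 = 2; decide⟩
      · exact ⟨by simp [bm], by show tab 2 1 = 2; decide⟩
      · exact ⟨by simp [bm], by show tab 3 0 = 2; decide⟩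
    · fin_cases a
      · exact ⟨by simp [bm], rfl⟩
      · exact ⟨by simp [bm], rfl⟩
      · exact ⟨by simp [bm], rfl⟩
  · rintro (i | ⟨a, i, s⟩)
    · fin_cases i <;> rfl
    · fin_cases a <;> simp [bm]

theorem ty_cases (k : ℕ) (v : W k) :
    v = Sum.inl 0 ∨ v = Sum.inl 1 ∨ v = Sum.inl 2 ∨ v = Sum.inl 3 ∨
      (∃ p, v = Sum.inr (0, p)) ∨ (∃ p, v = Sum.inr (1, p)) ∨ (∃ p, v = Sum.inr (2, p)) := by
  rcases v with i | ⟨a, p⟩
  · fin_cases i <;> simp
  · fin_cases a <;> simp

/-- Which vertices have a given neighbour. -/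
theorem nbr (k : ℕ) {u v : W k} {c : Fin 3} (h : (gr k c).Adj u v) :
    tab (ty k u) (ty k v) = c := h.2

theorem no_ahc (k : ℕ) (hk : 1 ≤ k) : ¬ HasAHC (gr k 1) (gr k 2) := by
  intro h
  obtain ⟨r, b, hr, hb, hcl⟩ := h.exists_closed
  -- blue partners of class 0 lie in class 2
  have hE : ∀ p, ∃ q, b (Sum.inr (0, p)) = Sum.inr (2, q) := by
    intro p
    have h1 := nbr k (hb.adj (Sum.inr (0, p)))
    rcases ty_cases k (b (Sum.inr (0, p))) with e | e | e | e | ⟨q, e⟩ | ⟨q, e⟩ | ⟨q, e⟩
    · rw [e] at h1; exact absurd h1 (by show ¬ (tab 4 0 = 2); decide)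
    · rw [e] at h1; exact absurd h1 (by show ¬ (tab 4 1 = 2); decide)
    · rw [e] at h1; exact absurd h1 (by show ¬ (tab 4 2 = 2); decide)
    · rw [e] at h1; exact absurd h1 (by show ¬ (tab 4 3 = 2); decide)
    · rw [e] at h1; exact absurd h1 (by show ¬ (tab 4 4 = 2); decide)
    · rw [e] at h1; exact absurd h1 (by show ¬ (tab 4 5 = 2); decide)
    · exact ⟨q, e⟩
  choose g hg using hE
  have ginj : Function.Injective g := by
    intro p q hpq
    have h1 : b (Sum.inr (0, p)) = b (Sum.inr (0, q)) := by rw [hg, hg, hpq]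
    have h2 := hb.inj h1
    simpa using h2
  have gsur : Function.Surjective g := Finite.surjective_of_injective ginj
  -- hence blue partners of class 2 lie in class 0
  have hY : ∀ q, ∃ p, b (Sum.inr (2, q)) = Sum.inr (0, p) := by
    intro q
    obtain ⟨p, rfl⟩ := gsur q
    exact ⟨p, by rw [← hg, hb.inv]⟩
  have b0 : b (Sum.inl 0) = Sum.inl 3 := by
    have h1 := nbr k (hb.adj (Sum.inl 0))
    rcases ty_cases k (b (Sum.inl 0)) with e | e | e | e | ⟨q, e⟩ | ⟨q, e⟩ | ⟨q, e⟩
    · rw [e] at h1; exact absurd h1 (by show ¬ (tab 0 0 = 2); decide)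
    · rw [e] at h1; exact absurd h1 (by show ¬ (tab 0 1 = 2); decide)
    · rw [e] at h1; exact absurd h1 (by show ¬ (tab 0 2 = 2); decide)
    · exact e
    · rw [e] at h1; exact absurd h1 (by show ¬ (tab 0 4 = 2); decide)
    · rw [e] at h1; exact absurd h1 (by show ¬ (tab 0 5 = 2); decide)
    · obtain ⟨p, hp⟩ := hY q
      rw [← e, hb.inv] at hp
      exact absurd hp (by simp)
  have b2 : b (Sum.inl 2) = Sum.inl 1 := by
    have h1 := nbr k (hb.adj (Sum.inl 2))
    rcases ty_cases k (b (Sum.inl 2)) with e | e | e | e | ⟨q, e⟩ | ⟨q, e⟩ | ⟨q, e⟩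
    · rw [e] at h1; exact absurd h1 (by show ¬ (tab 2 0 = 2); decide)
    · exact e
    · rw [e] at h1; exact absurd h1 (by show ¬ (tab 2 2 = 2); decide)
    · rw [e] at h1; exact absurd h1 (by show ¬ (tab 2 3 = 2); decide)
    · rw [e] at h1; exact absurd h1 (by show ¬ (tab 2 4 = 2); decide)
    · rw [e] at h1; exact absurd h1 (by show ¬ (tab 2 5 = 2); decide)
    · obtain ⟨p, hp⟩ := hY q
      rw [← e, hb.inv] at hp
      exact absurd hp (by simp)
  have r1 : r (Sum.inl 1) = Sum.inl 0 := by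
    have h1 := nbr k (hr.adj (Sum.inl 1))
    rcases ty_cases k (r (Sum.inl 1)) with e | e | e | e | ⟨q, e⟩ | ⟨q, e⟩ | ⟨q, e⟩
    · exact e
    · rw [e] at h1; exact absurd h1 (by show ¬ (tab 1 1 = 1); decide)
    · rw [e] at h1; exact absurd h1 (by show ¬ (tab 1 2 = 1); decide)
    · rw [e] at h1; exact absurd h1 (by show ¬ (tab 1 3 = 1); decide)
    · rw [e] at h1; exact absurd h1 (by show ¬ (tab 1 4 = 1); decide)
    · rw [e] at h1; exact absurd h1 (by show ¬ (tab 1 5 = 1); decide)
    · rw [e] at h1; exact absurd h1 (by show ¬ (tab 1 6 = 1); decide)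
  have r3 : r (Sum.inl 3) = Sum.inl 2 := by
    have h1 := nbr k (hr.adj (Sum.inl 3))
    rcases ty_cases k (r (Sum.inl 3)) with e | e | e | e | ⟨q, e⟩ | ⟨q, e⟩ | ⟨q, e⟩
    · rw [e] at h1; exact absurd h1 (by show ¬ (tab 3 0 = 1); decide)
    · rw [e] at h1; exact absurd h1 (by show ¬ (tab 3 1 = 1); decide)
    · exact e
    · rw [e] at h1; exact absurd h1 (by show ¬ (tab 3 3 = 1); decide)
    · rw [e] at h1; exact absurd h1 (by show ¬ (tab 3 4 = 1); decide)
    · rw [e] at h1; exact absurd h1 (by show ¬ (tab 3 5 = 1); decide)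
    · rw [e] at h1; exact absurd h1 (by show ¬ (tab 3 6 = 1); decide)
  have r0 : r (Sum.inl 0) = Sum.inl 1 := by rw [← r1, hr.inv]
  have r2 : r (Sum.inl 2) = Sum.inl 3 := by rw [← r3, hr.inv]
  have b3 : b (Sum.inl 3) = Sum.inl 0 := by rw [← b0, hb.inv]
  have b1 : b (Sum.inl 1) = Sum.inl 2 := by rw [← b2, hb.inv]
  have hfin := hcl (fun v => ∃ i : Fin 4, v = Sum.inl i)
    (by
      rintro v ⟨i, rfl⟩
      fin_cases i
      · exact ⟨1, r0⟩
      · exact ⟨0, r1⟩
      · exact ⟨3, r2⟩
      · exact ⟨2, r3⟩)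
    (by
      rintro v ⟨i, rfl⟩
      fin_cases i
      · exact ⟨3, b0⟩
      · exact ⟨2, b1⟩
      · exact ⟨1, b2⟩
      · exact ⟨0, b3⟩)
    (Sum.inl 0) (Sum.inr (0, (⟨0, hk⟩, true))) ⟨0, rfl⟩
  obtain ⟨i, hi⟩ := hfin
  exact absurd hi (by simp)

theorem supp_le (k : ℕ) (K : (gr k 1).ConnectedComponent) : K.supp.ncard ≤ 4 * k + 4 := by
  classical
  induction K using SimpleGraph.ConnectedComponent.ind with
  | _ x =>
    set S : Set (W k) := {v | ty k v = 6} with hS
    have hstep : ∀ u v, (gr k 1).Adj u v → (ty k u = 6 ↔ ty k v = 6) := by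
      intro u v h
      have h2 := h.2
      have key : ∀ a c : Fin 7, tab a c = 1 → (a = 6 ↔ c = 6) := by decide
      exact key _ _ h2
    have hreach : ∀ u v, (gr k 1).Reachable u v → (ty k u = 6 ↔ ty k v = 6) := by
      rintro u v ⟨p⟩
      induction p with
      | nil => exact Iff.rfl
      | cons h _ ih => exact (hstep _ _ h).trans ih
    have hmem : ∀ v, v ∈ ((gr k 1).connectedComponentMk x).supp → (ty k x = 6 ↔ ty k v = 6) := by
      intro v hv
      rw [SimpleGraph.ConnectedComponent.mem_supp_iff, SimpleGraph.ConnectedComponent.eq] at hv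
      exact (hreach _ _ hv).symm
    have hcard : Fintype.card (W k) = 6 * k + 4 := by
      simp [W]; ring
    -- the class 2 has 2 k vertices
    have hY : S = Set.range (fun p : Fin k × Bool => (Sum.inr (2, p) : W k)) := by
      ext v
      constructor
      · intro hv
        rcases ty_cases k v with e | e | e | e | ⟨q, e⟩ | ⟨q, e⟩ | ⟨q, e⟩
        · rw [e] at hv; exact absurd hv (by show ¬ ((0 : Fin 7) = 6); decide)
        · rw [e] at hv; exact absurd hv (by show ¬ ((1 : Fin 7) = 6); decide)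
        · rw [e] at hv; exact absurd hv (by show ¬ ((2 : Fin 7) = 6); decide)
        · rw [e] at hv; exact absurd hv (by show ¬ ((3 : Fin 7) = 6); decide)
        · rw [e] at hv; exact absurd hv (by show ¬ ((4 : Fin 7) = 6); decide)
        · rw [e] at hv; exact absurd hv (by show ¬ ((5 : Fin 7) = 6); decide)
        · exact ⟨q, e.symm⟩
      · rintro ⟨q, rfl⟩
        rfl
    have hSc : S.ncard = 2 * k := by
      rw [hY, ← Set.image_univ, Set.ncard_image_of_injective, Set.ncard_univ]
      · simp; ring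
      · intro p q h
        simpa using h
    by_cases hx : ty k x = 6
    · have h1 : ((gr k 1).connectedComponentMk x).supp ⊆ S := fun v hv => (hmem v hv).1 hx
      have h2 := Set.ncard_le_ncard h1 (Set.toFinite _)
      omega
    · have h1 : ((gr k 1).connectedComponentMk x).supp ⊆ Sᶜ := fun v hv h =>
        hx ((hmem v hv).2 h)
      have h2 := Set.ncard_le_ncard h1 (Set.toFinite _)
      have h3 := Set.ncard_add_ncard_compl S
      rw [Nat.card_eq_fintype_card, hcard] at h3
      omega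

/-- For every `k ≥ 1` there is a 2-edge-coloured complete multipartite graph on `n = 6 k + 4`
vertices whose red components have at most `(2 n + 4) / 3` vertices, with perfect matchings in both
colours and without alternating Hamiltonian cycle. -/
theorem result (k : ℕ) (hk : 1 ≤ k) :
    ∃ (V : Type) (_ : Fintype V) (R B : SimpleGraph V), Fintype.card V = 6 * k + 4 ∧
      (∀ u v, R.Adj u v → ¬ B.Adj u v) ∧ (R ⊔ B).IsCompleteMultipartite ∧
      (∀ K : R.ConnectedComponent, 3 * K.supp.ncard ≤ 2 * Fintype.card V + 4) ∧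
      (∃ M : R.Subgraph, M.IsPerfectMatching) ∧ (∃ M : B.Subgraph, M.IsPerfectMatching) ∧
      ¬ HasAHC R B := by
  have hcard : Fintype.card (W k) = 6 * k + 4 := by
    simp [W]; ring
  refine ⟨W k, inferInstance, gr k 1, gr k 2, hcard, ?_, ?_, ?_, ?_, ?_, no_ahc k hk⟩
  · intro u v h1 h2
    have := h1.2
    rw [h2.2] at this
    exact absurd this (by decide)
  · have key : ∀ u v : W k, ¬ (gr k 1 ⊔ gr k 2).Adj u v ↔ (u = v ∨ tab (ty k u) (ty k v) = 0) := by
      intro u v
      rw [SimpleGraph.sup_adj]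
      have h3 : ∀ x : Fin 3, x = 0 ∨ x = 1 ∨ x = 2 := by decide
      constructor
      · intro h
        by_cases huv : u = v
        · exact Or.inl huv
        · right
          rcases h3 (tab (ty k u) (ty k v)) with e | e | e
          · exact e
          · exact absurd (Or.inl ⟨huv, e⟩) h
          · exact absurd (Or.inr ⟨huv, e⟩) h
      · rintro (rfl | h) (h' | h')
        · exact h'.1 rfl
        · exact h'.1 rfl
        · have := h'.2
          rw [h] at this
          exact absurd this (by decide)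
        · have := h'.2
          rw [h] at this
          exact absurd this (by decide)
    refine ⟨fun u v w h1 h2 => ?_⟩
    rw [key] at h1 h2 ⊢
    rcases h1 with rfl | h1
    · exact h2
    rcases h2 with rfl | h2
    · exact Or.inr h1
    · exact Or.inr (tab_trans _ _ _ h1 h2)
  · intro K
    have := supp_le k K
    rw [hcard]
    omega
  · exact exists_isPM_iff.2 ⟨_, rm_pm k⟩
  · exact exists_isPM_iff.2 ⟨_, bm_pm k⟩

end Pool.Agent.Results.MP_435603_co.ThresholdSharp
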