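import Pool.Agent.H35.AHC.Closed

/-!
MP_435603_co, partial (negative): the criterion which characterizes alternating Hamiltonian cycles
in 2-edge-coloured complete and complete bipartite graphs (the union of all alternating cycle
factors is connected) fails for complete graphs minus a single edge, on every even number
`n ≥ 10` of vertices.
-/

namespace Pool.Agent.Results.MP_435603_co.UnionCriterionFails

open Pool.Agent.H35.AHC

/-- The edges of `G` that lie in some perfect matching of `G`. -/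
def allowed {V : Type*} (G : SimpleGraph V) : SimpleGraph V where
  Adj u v := ∃ M : G.Subgraph, M.IsPerfectMatching ∧ M.Adj u v
  symm := ⟨fun _ _ ⟨M, h, h'⟩ => ⟨M, h, h'.symm⟩⟩
  loopless := ⟨fun _ ⟨_, _, h'⟩ => h'.adj_sub.ne rfl⟩

/-- Red pairs `u < v` (`L` is the last vertex). -/
def RL (L u v : ℕ) : Prop :=
  u < v ∧ ((v ≤ 5 ∧ ((u = 0 ∧ (v = 1 ∨ v = 2 ∨ v = 4)) ∨ (u = 1 ∧ (v = 3 ∨ v = 4)) ∨
      (u = 2 ∧ (v = 3 ∨ v = 4)) ∨ (u = 4 ∧ v = 5))) ∨
    (v = 6 ∧ u ≤ 4) ∨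
    (7 ≤ v ∧ v % 2 = 1 ∧ (u + 1 = v ∨ (6 ≤ u ∧ u % 2 = 0 ∧ u + 1 < v ∧ ¬ (u = 6 ∧ v = L)))) ∨
    (8 ≤ v ∧ v % 2 = 0 ∧ (u ≤ 5 ∨ (6 ≤ u ∧ u % 2 = 0))))

/-- Blue pairs `u < v`. -/
def BL (L u v : ℕ) : Prop := u < v ∧ ¬ RL L u v ∧ ¬ (u = 0 ∧ v = L)

/-- The red graph on `2 N` vertices. -/
def RG (N : ℕ) : SimpleGraph (Fin (2 * N)) where
  Adj u v := RL (2 * N - 1) u v ∨ RL (2 * N - 1) v u
  symm := ⟨fun _ _ h => h.symm⟩
  loopless := ⟨fun u h => by unfold RL at h; omega⟩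

/-- The blue graph on `2 N` vertices. -/
def BG (N : ℕ) : SimpleGraph (Fin (2 * N)) where
  Adj u v := BL (2 * N - 1) u v ∨ BL (2 * N - 1) v u
  symm := ⟨fun _ _ h => h.symm⟩
  loopless := ⟨fun u h => by unfold BL at h; omega⟩

theorem disj (N : ℕ) (u v : Fin (2 * N)) (h : (RG N).Adj u v) : ¬ (BG N).Adj u v := by
  intro h'
  simp only [RG, BG, BL] at h h'
  rcases h with h | h <;> rcases h' with h' | h'
  · exact h'.2.1 h
  · exact absurd h.1 (by have := h'.1; omega)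
  · exact absurd h.1 (by have := h'.1; omega)
  · exact h'.2.1 h

theorem sup_eq (N : ℕ) (hN : 5 ≤ N) :
    RG N ⊔ BG N = (⊤ : SimpleGraph (Fin (2 * N))).deleteEdges
      {s(⟨0, by omega⟩, ⟨2 * N - 1, by omega⟩)} := by
  ext u v
  rw [SimpleGraph.sup_adj, SimpleGraph.deleteEdges_adj]
  simp only [SimpleGraph.top_adj, Set.mem_singleton_iff, Sym2.eq_iff, RG, BG, BL, Fin.ext_iff,
    ne_eq]
  by_cases h1 : RL (2 * N - 1) u v
  · have h2 := h1
    unfold RL at h2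
    simp only [h1, true_or, true_iff]
    omega
  by_cases h2 : RL (2 * N - 1) v u
  · have h3 := h2
    unfold RL at h3
    simp only [h2, true_or, or_true, true_iff]
    omega
  · simp only [h1, h2, not_false_eq_true, true_and]
    have := u.isLt
    have := v.isLt
    simp only [false_or]
    constructor
    · rintro (h | h)
      · exact ⟨by omega, by omega⟩
      · exact ⟨by omega, by omega⟩
    · rintro ⟨h, h'⟩
      by_cases hlt : u.val < v.val
      · exact Or.inl ⟨hlt, by omega⟩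
      · exact Or.inr ⟨by omega, by omega⟩

section noahc

variable {N : ℕ} {r b : Fin (2 * N) → Fin (2 * N)}

theorem r_odd (hr : IsPM (RG N) r) :
    ∀ i : ℕ, ∀ v : Fin (2 * N), v.val = 7 + 2 * i → (r v).val + 1 = v.val := by
  intro i
  induction i using Nat.strong_induction_on with
  | _ i ih =>
    intro v hv
    have h1 : RL (2 * N - 1) v (r v) ∨ RL (2 * N - 1) (r v) v := hr.adj v
    have h2 : (r v).val + 1 = v.val ∨
        (6 ≤ (r v).val ∧ (r v).val % 2 = 0 ∧ (r v).val + 1 < v.val) := by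
      unfold RL at h1; omega
    rcases h2 with h2 | ⟨h2, h3, h4⟩
    · exact h2
    · exfalso
      -- the vertex after `r v` is matched to `r v`
      have hlt : (r v).val + 1 < 2 * N := by have := v.isLt; omega
      have h5 := ih (((r v).val + 1 - 7) / 2) (by omega) ⟨(r v).val + 1, hlt⟩ (by simp only; omega)
      have h6 : r ⟨(r v).val + 1, hlt⟩ = r v := by
        apply Fin.ext
        simp only at h5
        omega
      have h7 := hr.inj h6
      rw [Fin.ext_iff] at h7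
      simp only at h7
      have h8 : r (r v) = v := hr.inv v
      have h9 : r ⟨(r v).val + 1, hlt⟩ = r v := h6
      omega

theorem r_pair (hr : IsPM (RG N) r) (v : Fin (2 * N)) (hv : 6 ≤ v.val) :
    (v.val % 2 = 1 → (r v).val + 1 = v.val) ∧ (v.val % 2 = 0 → (r v).val = v.val + 1) := by
  constructor
  · intro h
    exact r_odd hr ((v.val - 7) / 2) v (by omega)
  · intro h
    have hlt : v.val + 1 < 2 * N := by have := v.isLt; omega
    have h1 := r_odd hr ((v.val - 6) / 2) ⟨v.val + 1, hlt⟩ (by simp only; omega)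
    have h2 : r ⟨v.val + 1, hlt⟩ = v := by
      apply Fin.ext; simp only at h1; omega
    rw [← h2, hr.inv, h2]

theorem r_five (hr : IsPM (RG N) r) (v : Fin (2 * N)) (hv : v.val = 5) :
    (r v).val = 4 := by
  have h1 : RL (2 * N - 1) v (r v) ∨ RL (2 * N - 1) (r v) v := hr.adj v
  have h2 : (r v).val = 4 ∨ 6 ≤ (r v).val := by unfold RL at h1; omega
  rcases h2 with h2 | h2
  · exact h2
  · have h3 := r_pair hr (r v) h2
    rw [hr.inv] at h3
    omega

theorem r_core (hN : 5 ≤ N) (hr : IsPM (RG N) r) (v : Fin (2 * N)) (hv : v.val ≤ 3) :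
    (r v).val ≤ 3 := by
  by_contra h
  by_cases h6 : 6 ≤ (r v).val
  · have h3 := r_pair hr (r v) h6
    rw [hr.inv] at h3
    omega
  · have h5 : (r v).val = 5 ∨ (r v).val = 4 := by omega
    rcases h5 with h5 | h5
    · have := r_five hr (r v) h5
      rw [hr.inv] at this
      omega
    · have h7 := r_five hr ⟨5, by omega⟩ rfl
      have h8 : r ⟨5, by omega⟩ = r v := by apply Fin.ext; omega
      have h9 := hr.inj h8
      rw [← h9] at hv
      simp only at hv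
      omega

theorem b_even (hN : 5 ≤ N) (hb : IsPM (BG N) b) :
    ∀ i : ℕ, ∀ v : Fin (2 * N), v.val = 8 + 2 * i → (b v).val + 1 = v.val := by
  intro i
  induction i using Nat.strong_induction_on with
  | _ i ih =>
    intro v hv
    have h1 : BL (2 * N - 1) v (b v) ∨ BL (2 * N - 1) (b v) v := hb.adj v
    have hlt0 := v.isLt
    have hlt1 := (b v).isLt
    have h2 : (b v).val + 1 = v.val ∨
        (7 ≤ (b v).val ∧ (b v).val % 2 = 1 ∧ (b v).val + 1 < v.val) := by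
      unfold BL RL at h1; omega
    rcases h2 with h2 | ⟨h2, h3, h4⟩
    · exact h2
    · exfalso
      have hlt : (b v).val + 1 < 2 * N := by omega
      have h5 := ih (((b v).val + 1 - 8) / 2) (by omega) ⟨(b v).val + 1, hlt⟩ (by simp only; omega)
      have h6 : b ⟨(b v).val + 1, hlt⟩ = b v := by
        apply Fin.ext
        simp only at h5
        omega
      have h7 := hb.inj h6
      rw [Fin.ext_iff] at h7
      simp only at h7
      omega

theorem b_pair (hN : 5 ≤ N) (hb : IsPM (BG N) b) (v : Fin (2 * N)) (hv : 7 ≤ v.val)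
    (hv' : v.val < 2 * N - 1) :
    (v.val % 2 = 0 → (b v).val + 1 = v.val) ∧ (v.val % 2 = 1 → (b v).val = v.val + 1) := by
  constructor
  · intro h
    exact b_even hN hb ((v.val - 8) / 2) v (by omega)
  · intro h
    have hlt : v.val + 1 < 2 * N := by omega
    have h1 := b_even hN hb ((v.val - 7) / 2) ⟨v.val + 1, hlt⟩ (by simp only; omega)
    have h2 : b ⟨v.val + 1, hlt⟩ = v := by
      apply Fin.ext; simp only at h1; omega
    rw [← h2, hb.inv, h2]

/-- Partners of vertices outside the forced path do not lie inside it. -/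
theorem b_out (hN : 5 ≤ N) (hb : IsPM (BG N) b) (v : Fin (2 * N)) (hv : v.val ≤ 6) :
    (b v).val ≤ 6 ∨ (b v).val = 2 * N - 1 := by
  by_contra h
  have hlt := (b v).isLt
  have h1 := b_pair hN hb (b v) (by omega) (by omega)
  rw [hb.inv] at h1
  omega

theorem no_ahc (hN : 5 ≤ N) : ¬ HasAHC (RG N) (BG N) := by
  intro h
  obtain ⟨r, b, hr, hb, hcl⟩ := h.exists_closed
  have v0 : (0 : ℕ) < 2 * N := by omega
  have v1 : (1 : ℕ) < 2 * N := by omega
  have v4 : (4 : ℕ) < 2 * N := by omega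
  have v5 : (5 : ℕ) < 2 * N := by omega
  have v6 : (6 : ℕ) < 2 * N := by omega
  have vL : 2 * N - 1 < 2 * N := by omega
  have e6 : (b ⟨6, v6⟩).val = 5 ∨ (b ⟨6, v6⟩).val = 2 * N - 1 := by
    have h1 : BL (2 * N - 1) 6 (b ⟨6, v6⟩) ∨ BL (2 * N - 1) (b ⟨6, v6⟩) 6 := hb.adj ⟨6, v6⟩
    have h2 := b_out hN hb ⟨6, v6⟩ (le_refl 6)
    have h3 := (b ⟨6, v6⟩).isLt
    unfold BL RL at h1
    omega
  rcases e6 with e6 | e6
  · -- the set `{0,1,2,3}` is closed
    have h5 : b ⟨5, v5⟩ = ⟨6, v6⟩ := by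
      rw [← hb.inv ⟨6, v6⟩]
      congr 1
      apply Fin.ext; exact e6.symm
    have h0 : (b ⟨0, v0⟩).val = 3 := by
      have h1 : BL (2 * N - 1) 0 (b ⟨0, v0⟩) ∨ BL (2 * N - 1) (b ⟨0, v0⟩) 0 := hb.adj ⟨0, v0⟩
      have h2 := b_out hN hb ⟨0, v0⟩ (by simp only; omega)
      have h3 := (b ⟨0, v0⟩).isLt
      have h4 : (b ⟨0, v0⟩).val = 3 ∨ (b ⟨0, v0⟩).val = 5 := by
        unfold BL RL at h1; omega
      rcases h4 with h4 | h4
      · exact h4
      · have h6 : b ⟨0, v0⟩ = ⟨5, v5⟩ := Fin.ext h4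
        have h7 : b ⟨5, v5⟩ = ⟨0, v0⟩ := by rw [← h6, hb.inv]
        rw [h7] at h5
        exact absurd (congrArg Fin.val h5) (by simp)
    have h3 : b ⟨3, by omega⟩ = ⟨0, v0⟩ := by
      rw [← hb.inv ⟨0, v0⟩]
      congr 1
      apply Fin.ext; exact h0.symm
    have h4 : (b ⟨4, v4⟩).val = 2 * N - 1 := by
      have h1 : BL (2 * N - 1) 4 (b ⟨4, v4⟩) ∨ BL (2 * N - 1) (b ⟨4, v4⟩) 4 := hb.adj ⟨4, v4⟩
      have h2 := b_out hN hb ⟨4, v4⟩ (by simp only; omega)
      have h8 := (b ⟨4, v4⟩).isLt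
      have h9 : (b ⟨4, v4⟩).val = 3 ∨ (b ⟨4, v4⟩).val = 2 * N - 1 := by
        unfold BL RL at h1; omega
      rcases h9 with h9 | h9
      · have h10 : b ⟨4, v4⟩ = ⟨3, by omega⟩ := Fin.ext h9
        have h11 : b ⟨3, by omega⟩ = ⟨4, v4⟩ := by rw [← h10, hb.inv]
        rw [h11] at h3
        exact absurd (congrArg Fin.val h3) (by simp)
      · exact h9
    have bL : b ⟨2 * N - 1, vL⟩ = ⟨4, v4⟩ := by
      rw [← hb.inv ⟨4, v4⟩]
      congr 1
      apply Fin.ext; exact h4.symm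
    have b6 : b ⟨6, v6⟩ = ⟨5, v5⟩ := Fin.ext e6
    have hcore : ∀ v : Fin (2 * N), v.val ≤ 3 → (b v).val ≤ 3 := by
      intro v hv
      have h2 := b_out hN hb v (by omega)
      by_contra hc
      have h6 : (b v).val = 4 ∨ (b v).val = 5 ∨ (b v).val = 6 ∨ (b v).val = 2 * N - 1 := by omega
      have hinv := hb.inv v
      rcases h6 with h6 | h6 | h6 | h6
      · have h7 : b v = ⟨4, v4⟩ := Fin.ext h6
        rw [h7] at hinv
        rw [hinv] at h4
        omega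
      · have h7 : b v = ⟨5, v5⟩ := Fin.ext h6
        rw [h7, h5] at hinv
        rw [← hinv] at hv
        simp only at hv
        omega
      · have h7 : b v = ⟨6, v6⟩ := Fin.ext h6
        rw [h7, b6] at hinv
        rw [← hinv] at hv
        simp only at hv
        omega
      · have h7 : b v = ⟨2 * N - 1, vL⟩ := Fin.ext h6
        rw [h7, bL] at hinv
        rw [← hinv] at hv
        simp only at hv
        omega
    have hfin := hcl (fun v => v.val ≤ 3) (fun v hv => r_core hN hr v hv) hcore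
      ⟨0, v0⟩ ⟨4, v4⟩ (by simp)
    simp only at hfin
    omega
  · -- the set of vertices `≥ 6` is closed
    have bL : b ⟨2 * N - 1, vL⟩ = ⟨6, v6⟩ := by
      rw [← hb.inv ⟨6, v6⟩]
      congr 1
      apply Fin.ext; exact e6.symm
    have hfin := hcl (fun v => 6 ≤ v.val)
      (fun v hv => by
        have h1 := r_pair hr v hv
        omega)
      (fun v hv => by
        by_cases h1 : v.val = 6
        · have : v = ⟨6, v6⟩ := Fin.ext h1
          rw [this]; omega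
        by_cases h2 : v.val = 2 * N - 1
        · have : v = ⟨2 * N - 1, vL⟩ := Fin.ext h2
          rw [this, bL]
        · have h3 := v.isLt
          have := b_pair hN hb v (by omega) (by omega)
          omega)
      ⟨6, v6⟩ ⟨0, v0⟩ (by simp)
    simp only at hfin
    omega

end noahc

/-- The first blue matching: a table on the vertices `0..6` and `L`, and consecutive pairs
elsewhere. -/
def SA (L v w : ℕ) : Prop :=
  (v = 0 ∧ w = 3) ∨ (v = 3 ∧ w = 0) ∨ (v = 1 ∧ w = 2) ∨ (v = 2 ∧ w = 1) ∨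
  (v = 4 ∧ w = L) ∨ (v = L ∧ w = 4) ∨ (v = 5 ∧ w = 6) ∨ (v = 6 ∧ w = 5) ∨
  (7 ≤ v ∧ v < L ∧ v % 2 = 1 ∧ w = v + 1) ∨ (7 ≤ v ∧ v < L ∧ v % 2 = 0 ∧ w + 1 = v)

/-- The second blue matching. -/
def SB (L v w : ℕ) : Prop :=
  (v = 0 ∧ w = 5) ∨ (v = 5 ∧ w = 0) ∨ (v = 1 ∧ w = 2) ∨ (v = 2 ∧ w = 1) ∨
  (v = 3 ∧ w = 4) ∨ (v = 4 ∧ w = 3) ∨ (v = 6 ∧ w = L) ∨ (v = L ∧ w = 6) ∨
  (7 ≤ v ∧ v < L ∧ v % 2 = 1 ∧ w = v + 1) ∨ (7 ≤ v ∧ v < L ∧ v % 2 = 0 ∧ w + 1 = v)

/-- The red matching of consecutive pairs. -/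
def SR (v w : ℕ) : Prop := (v % 2 = 0 ∧ w = v + 1) ∨ (v % 2 = 1 ∧ w + 1 = v)

theorem v_cases {N : ℕ} (hN : 5 ≤ N) (v : ℕ) (hv : v < 2 * N) :
    v = 0 ∨ v = 1 ∨ v = 2 ∨ v = 3 ∨ v = 4 ∨ v = 5 ∨ v = 6 ∨ v = 2 * N - 1 ∨
    (7 ≤ v ∧ v < 2 * N - 1 ∧ v % 2 = 1) ∨ (7 ≤ v ∧ v < 2 * N - 1 ∧ v % 2 = 0) := by
  omega

theorem exA {N : ℕ} (hN : 5 ≤ N) (v : Fin (2 * N)) : ∃ w : Fin (2 * N), SA (2 * N - 1) v w := by
  rcases v_cases hN v v.isLt with h | h | h | h | h | h | h | h | h | h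
  · exact ⟨⟨3, by omega⟩, Or.inl ⟨h, rfl⟩⟩
  · exact ⟨⟨2, by omega⟩, Or.inr (Or.inr (Or.inl ⟨h, rfl⟩))⟩
  · exact ⟨⟨1, by omega⟩, Or.inr (Or.inr (Or.inr (Or.inl ⟨h, rfl⟩)))⟩
  · exact ⟨⟨0, by omega⟩, Or.inr (Or.inl ⟨h, rfl⟩)⟩
  · exact ⟨⟨2 * N - 1, by omega⟩, Or.inr (Or.inr (Or.inr (Or.inr (Or.inl ⟨h, rfl⟩))))⟩
  · exact ⟨⟨6, by omega⟩,
      Or.inr (Or.inr (Or.inr (Or.inr (Or.inr (Or.inr (Or.inl ⟨h, rfl⟩))))))⟩
  · exact ⟨⟨5, by omega⟩,
      Or.inr (Or.inr (Or.inr (Or.inr (Or.inr (Or.inr (Or.inr (Or.inl ⟨h, rfl⟩)))))))⟩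
  · exact ⟨⟨4, by omega⟩, Or.inr (Or.inr (Or.inr (Or.inr (Or.inr (Or.inl ⟨h, rfl⟩)))))⟩
  · exact ⟨⟨v.val + 1, by omega⟩, Or.inr (Or.inr (Or.inr (Or.inr (Or.inr (Or.inr (Or.inr (Or.inr
      (Or.inl ⟨h.1, h.2.1, h.2.2, rfl⟩))))))))⟩
  · exact ⟨⟨v.val - 1, by omega⟩, Or.inr (Or.inr (Or.inr (Or.inr (Or.inr (Or.inr (Or.inr (Or.inr
      (Or.inr ⟨h.1, h.2.1, h.2.2, by simp only; omega⟩))))))))⟩

theorem exB {N : ℕ} (hN : 5 ≤ N) (v : Fin (2 * N)) : ∃ w : Fin (2 * N), SB (2 * N - 1) v w := by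
  rcases v_cases hN v v.isLt with h | h | h | h | h | h | h | h | h | h
  · exact ⟨⟨5, by omega⟩, Or.inl ⟨h, rfl⟩⟩
  · exact ⟨⟨2, by omega⟩, Or.inr (Or.inr (Or.inl ⟨h, rfl⟩))⟩
  · exact ⟨⟨1, by omega⟩, Or.inr (Or.inr (Or.inr (Or.inl ⟨h, rfl⟩)))⟩
  · exact ⟨⟨4, by omega⟩, Or.inr (Or.inr (Or.inr (Or.inr (Or.inl ⟨h, rfl⟩))))⟩
  · exact ⟨⟨3, by omega⟩, Or.inr (Or.inr (Or.inr (Or.inr (Or.inr (Or.inl ⟨h, rfl⟩)))))⟩
  · exact ⟨⟨0, by omega⟩, Or.inr (Or.inl ⟨h, rfl⟩)⟩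
  · exact ⟨⟨2 * N - 1, by omega⟩,
      Or.inr (Or.inr (Or.inr (Or.inr (Or.inr (Or.inr (Or.inl ⟨h, rfl⟩))))))⟩
  · exact ⟨⟨6, by omega⟩,
      Or.inr (Or.inr (Or.inr (Or.inr (Or.inr (Or.inr (Or.inr (Or.inl ⟨h, rfl⟩)))))))⟩
  · exact ⟨⟨v.val + 1, by omega⟩, Or.inr (Or.inr (Or.inr (Or.inr (Or.inr (Or.inr (Or.inr (Or.inr
      (Or.inl ⟨h.1, h.2.1, h.2.2, rfl⟩))))))))⟩
  · exact ⟨⟨v.val - 1, by omega⟩, Or.inr (Or.inr (Or.inr (Or.inr (Or.inr (Or.inr (Or.inr (Or.inr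
      (Or.inr ⟨h.1, h.2.1, h.2.2, by simp only; omega⟩))))))))⟩

theorem exR {N : ℕ} (v : Fin (2 * N)) : ∃ w : Fin (2 * N), SR v w := by
  have h0 := v.isLt
  by_cases h : v.val % 2 = 0
  · exact ⟨⟨v.val + 1, by omega⟩, Or.inl ⟨h, rfl⟩⟩
  · exact ⟨⟨v.val - 1, by omega⟩, Or.inr ⟨by omega, by simp only; omega⟩⟩

theorem pmA {N : ℕ} (hN : 5 ≤ N) :
    ∃ f : Fin (2 * N) → Fin (2 * N), IsPM (BG N) f ∧ ∀ v : Fin (2 * N), SA (2 * N - 1) v (f v) := by
  choose f hf using exA hN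
  refine ⟨f, ⟨fun v => ?_, fun v => ?_⟩, hf⟩
  · have h0 := v.isLt
    show BL (2 * N - 1) v (f v) ∨ BL (2 * N - 1) (f v) v
    rcases hf v with h | h | h | h | h | h | h | h | h | h <;> (unfold BL RL; omega)
  · apply Fin.ext
    have h1 := hf (f v)
    rcases hf v with h | h | h | h | h | h | h | h | h | h <;> (unfold SA at h1; omega)

theorem pmB {N : ℕ} (hN : 5 ≤ N) :
    ∃ f : Fin (2 * N) → Fin (2 * N), IsPM (BG N) f ∧ ∀ v : Fin (2 * N), SB (2 * N - 1) v (f v) := by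
  choose f hf using exB hN
  refine ⟨f, ⟨fun v => ?_, fun v => ?_⟩, hf⟩
  · have h0 := v.isLt
    show BL (2 * N - 1) v (f v) ∨ BL (2 * N - 1) (f v) v
    rcases hf v with h | h | h | h | h | h | h | h | h | h <;> (unfold BL RL; omega)
  · apply Fin.ext
    have h1 := hf (f v)
    rcases hf v with h | h | h | h | h | h | h | h | h | h <;> (unfold SB at h1; omega)

theorem pmR {N : ℕ} (hN : 5 ≤ N) :
    ∃ f : Fin (2 * N) → Fin (2 * N), IsPM (RG N) f ∧ ∀ v : Fin (2 * N), SR v (f v) := by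
  choose f hf using exR (N := N)
  refine ⟨f, ⟨fun v => ?_, fun v => ?_⟩, hf⟩
  · have h0 := v.isLt
    show RL (2 * N - 1) v (f v) ∨ RL (2 * N - 1) (f v) v
    rcases hf v with ⟨h1, h2⟩ | ⟨h1, h2⟩
    · left
      refine ⟨by omega, ?_⟩
      by_cases h5 : v.val ≤ 5
      · left; omega
      · right; right; left; omega
    · right
      refine ⟨by omega, ?_⟩
      by_cases h5 : v.val ≤ 5
      · left; omega
      · right; right; left; omega
  · apply Fin.ext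
    have h1 := hf (f v)
    rcases hf v with h | h <;> (unfold SR at h1; omega)

theorem allowed_of_pm {V : Type*} {G : SimpleGraph V} {f : V → V} (hf : IsPM G f) (u : V) :
    (allowed G).Adj u (f u) := by
  refine ⟨{ verts := Set.univ
            Adj := fun u v => v = f u
            adj_sub := ?_
            edge_vert := fun _ => trivial
            symm := ?_ }, ?_, rfl⟩
  · rintro u v rfl; exact hf.adj u
  · exact ⟨fun u v h => by rw [h, hf.inv]⟩
  · rw [SimpleGraph.Subgraph.isPerfectMatching_iff]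
    intro v
    exact ⟨f v, rfl, fun w hw => hw⟩

/-- Consecutive vertices are joined by an edge of a factor. -/
theorem step {N : ℕ} (hN : 5 ≤ N) (i : ℕ) (hi : i + 1 < 2 * N) :
    (allowed (RG N) ⊔ allowed (BG N)).Adj ⟨i, by omega⟩ ⟨i + 1, hi⟩ := by
  rw [SimpleGraph.sup_adj]
  by_cases h : i % 2 = 0
  · left
    obtain ⟨f, hf, hs⟩ := pmR hN
    have h1 := allowed_of_pm hf ⟨i, by omega⟩
    have h2 : f ⟨i, by omega⟩ = ⟨i + 1, hi⟩ := by
      apply Fin.ext
      have := hs ⟨i, by omega⟩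
      unfold SR at this
      simp only at this ⊢
      omega
    rwa [h2] at h1
  · right
    by_cases h3 : i = 3
    · obtain ⟨f, hf, hs⟩ := pmB hN
      have h1 := allowed_of_pm hf ⟨i, by omega⟩
      have h2 : f ⟨i, by omega⟩ = ⟨i + 1, hi⟩ := by
        apply Fin.ext
        have := hs ⟨i, by omega⟩
        unfold SB at this
        simp only at this ⊢
        omega
      rwa [h2] at h1
    · obtain ⟨f, hf, hs⟩ := pmA hN
      have h1 := allowed_of_pm hf ⟨i, by omega⟩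
      have h2 : f ⟨i, by omega⟩ = ⟨i + 1, hi⟩ := by
        apply Fin.ext
        have := hs ⟨i, by omega⟩
        unfold SA at this
        simp only at this ⊢
        omega
      rwa [h2] at h1

/-- **Result.** For every `N ≥ 5` there is a red/blue colouring of the complete graph on `2 N`
vertices minus one edge such that the union of all alternating cycle factors is connected and
spanning, but there is no alternating Hamiltonian cycle. -/
theorem result (N : ℕ) (hN : 5 ≤ N) :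
    ∃ R B : SimpleGraph (Fin (2 * N)), (∀ u v, R.Adj u v → ¬ B.Adj u v) ∧
      R ⊔ B = (⊤ : SimpleGraph (Fin (2 * N))).deleteEdges
        {s(⟨0, by omega⟩, ⟨2 * N - 1, by omega⟩)} ∧
      (∃ M : R.Subgraph, M.IsPerfectMatching) ∧ (∃ M : B.Subgraph, M.IsPerfectMatching) ∧
      (allowed R ⊔ allowed B).Connected ∧ ¬ HasAHC R B := by
  obtain ⟨f, hf, -⟩ := pmR hN
  obtain ⟨g, hg, -⟩ := pmA hN
  refine ⟨RG N, BG N, disj N, sup_eq N hN, exists_isPM_iff.2 ⟨f, hf⟩,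
    exists_isPM_iff.2 ⟨g, hg⟩, ?_, no_ahc hN⟩
  have key : ∀ i : ℕ, ∀ hi : i < 2 * N,
      (allowed (RG N) ⊔ allowed (BG N)).Reachable ⟨0, by omega⟩ ⟨i, hi⟩ := by
    intro i
    induction i with
    | zero => intro _; exact SimpleGraph.Reachable.refl _
    | succ i ih => intro hi; exact (ih (by omega)).trans (step hN i hi).reachable
  have : Nonempty (Fin (2 * N)) := ⟨⟨0, by omega⟩⟩
  exact ⟨fun u v => (key u.val u.isLt).symm.trans (key v.val v.isLt)⟩

end Pool.Agent.Results.MP_435603_co.UnionCriterionFails
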